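import Mathlib
import Pool.Agent.Run7.h462.BPD.Stm

/-!
# Project BPG (helper462): primes `F(n) + a`, `F` ANY integer polynomial of degree `d ≥ 2` with positive leading
coefficient, for a positive proportion of the `a ≤ A`, `N^(max (3d/4 - 1) (d - 2) + ε) ≤ A ≤ N^(d - 1)`

Statements: those of BPD with `1/4` replaced by `lam d = min (1/4) (1/d)` and `7/8` by `1 - lam d / 2`.
-/

set_option autoImplicit false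

namespace Run7.h462.BPG

open Finset Filter Topology
open Pool.Agent.H469R2.NK (e)
open Pool.Agent.N792 (tri triC)
open Pool.Agent.H373R2.T7 (pz Vz)
open Pool.Agent.TH204.WR (rho hh)
open Run7.h462.BPD (EE P)
open scoped Polynomial

/-- the exponent -/
noncomputable def lam (d : ℕ) : ℝ := min (1 / 4) (1 / (d : ℝ))

lemma lam_pos {d : ℕ} (hd : 1 ≤ d) : 0 < lam d := by
  unfold lam
  have : (0 : ℝ) < d := by exact_mod_cast hd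
  exact lt_min (by norm_num) (by positivity)

lemma lam_le_quarter (d : ℕ) : lam d ≤ 1 / 4 := min_le_left _ _

lemma lam_le_inv (d : ℕ) : lam d ≤ 1 / (d : ℝ) := min_le_right _ _

/-- **BIL** (from TII, `2 ≤ d`) -/
def S_BIL (s : ℝ) (d : ℕ) : Prop := ∃ C : ℝ, 1 ≤ C ∧ ∀ (X X' U H M L : ℕ) (c a b : ℕ → ℂ), 1 ≤ H → H ^ 2 ≤ X → 1 ≤ X →
  X ≤ X' → X' ≤ 2 * X → X ≤ 16 * U ^ 4 → 1 ≤ M → 1 ≤ L → U < 2 * M → U < 2 * L → M * L ≤ X' →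
  (∀ h, ‖c h‖ ≤ 1) → (∀ m, ‖a m‖ ≤ 1) → (∀ l, ‖b l‖ ≤ 1) →
  ‖∑ m ∈ Ioc M (2 * M), ∑ l ∈ Ioc L (2 * L), a m * b l * (if X < m * l ∧ m * l ≤ X' then EE s d H c (m * l) else 0)‖ ≤
    C * (1 + Real.log X) ^ 2 * (H * (X : ℝ) ^ (3 / 4 : ℝ) + √(H : ℝ) * (X : ℝ) ^ (1 - lam d / 2))

/-- **TI** (`2 ≤ d`) -/
def S_TI (s : ℝ) (d : ℕ) : Prop := ∃ C : ℝ, 1 ≤ C ∧ ∀ (X X' h k b : ℕ), 1 ≤ X → X' ≤ 2 * X → 1 ≤ h → h ^ 2 ≤ X → 1 ≤ k →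
  k ^ 4 ≤ X → b ≤ X' / k →
  ‖∑ l ∈ Ioc (X / k) b, e (s * h * ((k * l : ℕ) : ℝ) ^ (1 / (d : ℝ)))‖ ≤
    C * (√(h : ℝ) * (X : ℝ) ^ (1 / 4 : ℝ) + (X : ℝ) ^ (1 - lam d / 2) / (√(h : ℝ) * k)) * (1 + Real.log X)

/-- **ES** with the condition `4 H² ≤ X` (from VAU, BIL, TI) -/
def S_ES4 (s : ℝ) (d : ℕ) : Prop := ∀ ε : ℝ, 0 < ε → ∃ C : ℝ, 1 ≤ C ∧ ∀ (X X' H : ℕ) (c : ℕ → ℂ), 1 ≤ H →
  4 * H ^ 2 ≤ X → X ≤ X' → X' ≤ 2 * X → (∀ h, ‖c h‖ ≤ 1) →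
  ‖∑ n ∈ Ioc X X', ((ArithmeticFunction.vonMangoldt n : ℝ) : ℂ) * EE s d H c n‖ ≤
    C * (X : ℝ) ^ ε * (H * (X : ℝ) ^ (3 / 4 : ℝ) + √(H : ℝ) * (X : ℝ) ^ (1 - lam d / 2))

/-- **TRI** (from ES4) -/
def S_TRI (s : ℝ) (d : ℕ) : Prop := ∀ ε η : ℝ, 0 < ε → 0 < η → ∃ X₀ : ℕ, ∀ X X' : ℕ, X₀ ≤ X → X ≤ X' → X' ≤ 2 * X →
  ∀ δ t : ℝ, (X : ℝ) ^ (-lam d + ε) ≤ δ → δ ≤ 1 / 2 →
  |∑ v ∈ Ioc X X', ArithmeticFunction.vonMangoldt v * tri δ (s * (v : ℝ) ^ (1 / (d : ℝ)) + t) -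
    δ * ∑ v ∈ Ioc X X', ArithmeticFunction.vonMangoldt v| ≤ η * (δ * X)

/-- **FM** (from TRI, `2 ≤ d`); the lower end of the range is `N^(max (3d/4 - 1) (d - 2) + ε)` -/
def S_FM (F : ℤ[X]) : Prop := ∀ η : ℝ, 0 < η → ∃ c₀ : ℝ, 0 < c₀ ∧ ∀ ε : ℝ, 0 < ε → ∃ N₀ : ℕ, ∀ N : ℕ, N₀ ≤ N → ∀ A : ℕ,
  (N : ℝ) ^ ((1 - lam F.natDegree) * (F.natDegree : ℝ) - 1 + ε) ≤ A → (A : ℝ) ≤ c₀ * (N : ℝ) ^ (F.natDegree - 1) →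
  (1 - η) * (A * N / (F.natDegree * Real.log N)) ≤ ∑ a ∈ Icc 1 A, (P F a N : ℝ)

end Run7.h462.BPG
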